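import Mathlib

/-!
Tensor products and scalar extensions of central simple algebras.
-/

set_option autoImplicit false

open scoped TensorProduct
open Module

namespace Pool.Agent.LibMS46

section

variable {K A B : Type*} [Field K] [Ring A] [Algebra K A] [Ring B] [Algebra K B]

/-- The coordinates of an element of `A ⊗ B` with respect to a basis of `B`. -/
noncomputable def crd {ι : Type*} (b : Basis ι K B) : A ⊗[K] B ≃ₗ[K] ι →₀ A :=
  haveI := Classical.decEq ι
  TensorProduct.equivFinsuppOfBasisRight b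

theorem crd_tmul {ι : Type*} (b : Basis ι K B) (x : A) (y : B) (i : ι) :
    crd b (x ⊗ₜ[K] y) i = (b.repr y i) • x := by
  classical
  simp [crd]

theorem crd_left {ι : Type*} (b : Basis ι K B) (a : A) (x : A ⊗[K] B) (i : ι) :
    crd b ((a ⊗ₜ[K] 1) * x) i = a * crd b x i := by
  induction x using TensorProduct.induction_on with
  | zero => simp
  | tmul y z => simp [crd_tmul]
  | add y z hy hz => rw [mul_add, map_add, map_add, Finsupp.add_apply, Finsupp.add_apply, hy, hz,
      mul_add]

theorem crd_right {ι : Type*} (b : Basis ι K B) (a : A) (x : A ⊗[K] B) (i : ι) :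
    crd b (x * (a ⊗ₜ[K] 1)) i = crd b x i * a := by
  induction x using TensorProduct.induction_on with
  | zero => simp
  | tmul y z => simp [crd_tmul]
  | add y z hy hz => rw [add_mul, map_add, map_add, Finsupp.add_apply, Finsupp.add_apply, hy, hz,
      add_mul]

theorem eq_tmul_of_crd {ι : Type*} (b : Basis ι K B) (x : A ⊗[K] B)
    (h : ∀ i, ∃ k : K, crd b x i = algebraMap K A k) : ∃ y : B, x = 1 ⊗ₜ[K] y := by
  classical
  choose k hk using h
  have hinj : ∀ i, crd b x i = 0 → algebraMap K A (k i) = 0 := fun i hi => by rw [← hk i, hi]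
  refine ⟨∑ i ∈ (crd b x).support, k i • b i, ?_⟩
  apply (crd b).injective
  ext j
  rw [crd_tmul, Algebra.smul_def, mul_one, map_sum, Finsupp.finsetSum_apply, map_sum]
  rw [Finset.sum_eq_single j]
  · rw [map_smul, Basis.repr_self, Finsupp.smul_single, Finsupp.single_eq_same, smul_eq_mul,
      mul_one, hk]
  · intro i _ hij
    rw [map_smul, Basis.repr_self, Finsupp.smul_single, Finsupp.single_eq_of_ne hij.symm, map_zero]
  · intro hj
    rw [Finsupp.mem_support_iff, not_not] at hj
    rw [map_smul, Basis.repr_self, Finsupp.smul_single, Finsupp.single_eq_same, smul_eq_mul,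
      mul_one, hinj j hj]

variable [Algebra.IsCentral K A] [IsSimpleRing A]

/-- A nonzero ideal of `A ⊗ B`, `A` central simple, contains a nonzero `1 ⊗ y`. -/
theorem exists_tmul_mem (I : TwoSidedIdeal (A ⊗[K] B)) (hI : I ≠ ⊥) :
    ∃ y : B, y ≠ 0 ∧ (1 : A) ⊗ₜ[K] y ∈ I := by
  classical
  let b := Basis.ofVectorSpace K B
  obtain ⟨x₀, hx₀, hx₀'⟩ := SetLike.exists_of_lt (bot_lt_iff_ne_bot.2 hI)
  have hex : ∃ n : ℕ, ∃ x ∈ I, x ≠ 0 ∧ (crd b x).support.card = n :=
    ⟨_, x₀, hx₀, hx₀', rfl⟩
  obtain ⟨x, hxI, hx0, hxn⟩ := Nat.find_spec hex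
  have hmin : ∀ y ∈ I, (crd b y).support.card < Nat.find hex → y = 0 := by
    intro y hy hlt
    by_contra h0
    exact Nat.find_min hex hlt ⟨y, hy, h0, rfl⟩
  have hxs : (crd b x) ≠ 0 := fun h => hx0 (by simpa using h)
  obtain ⟨j, hj⟩ := Finsupp.support_nonempty_iff.2 hxs
  rw [Finsupp.mem_support_iff] at hj
  -- the ideal of the j-th coordinates
  let T : TwoSidedIdeal A := TwoSidedIdeal.mk'
    {c | ∃ y ∈ I, (∀ i ∉ (crd b x).support, crd b y i = 0) ∧ crd b y j = c}
    ⟨0, I.zero_mem, by simp, by simp⟩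
    (by
      rintro c c' ⟨y, hy, h1, rfl⟩ ⟨y', hy', h1', rfl⟩
      exact ⟨y + y', I.add_mem hy hy', fun i hi => by simp [h1 i hi, h1' i hi], by simp⟩)
    (by
      rintro c ⟨y, hy, h1, rfl⟩
      exact ⟨-y, I.neg_mem hy, fun i hi => by simp [h1 i hi], by simp⟩)
    (by
      rintro a c ⟨y, hy, h1, rfl⟩
      refine ⟨(a ⊗ₜ[K] 1) * y, I.mul_mem_left _ _ hy, fun i hi => ?_, ?_⟩
      · rw [crd_left, h1 i hi, mul_zero]
      · rw [crd_left])
    (by
      rintro c a ⟨y, hy, h1, rfl⟩
      refine ⟨y * (a ⊗ₜ[K] 1), I.mul_mem_right _ _ hy, fun i hi => ?_, ?_⟩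
      · rw [crd_right, h1 i hi, zero_mul]
      · rw [crd_right])
  have hT : (1 : A) ∈ T := by
    refine IsSimpleRing.one_mem_of_ne_zero_mem T (x := crd b x j) hj ?_
    rw [TwoSidedIdeal.mem_mk']
    exact ⟨x, hxI, fun i hi => Finsupp.notMem_support_iff.1 hi, rfl⟩
  rw [TwoSidedIdeal.mem_mk'] at hT
  obtain ⟨z, hzI, hz1, hz2⟩ := hT
  -- the coordinates of z are central
  have hcen : ∀ (a : A) (i), a * crd b z i = crd b z i * a := by
    intro a
    have h1 : (a ⊗ₜ[K] 1) * z - z * (a ⊗ₜ[K] 1) = 0 := by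
      refine hmin _ (I.sub_mem (I.mul_mem_left _ _ hzI) (I.mul_mem_right _ _ hzI)) ?_
      rw [← hxn]
      apply Finset.card_lt_card
      rw [Finset.ssubset_iff_of_subset]
      · refine ⟨j, Finsupp.mem_support_iff.2 hj, ?_⟩
        rw [Finsupp.notMem_support_iff, map_sub, Finsupp.sub_apply, crd_left, crd_right, hz2]
        simp
      · intro i hi
        by_contra hi'
        rw [Finsupp.mem_support_iff, map_sub, Finsupp.sub_apply, crd_left, crd_right,
          hz1 i hi'] at hi
        simp at hi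
    intro i
    have h2 := congrArg (fun t => crd b t i) h1
    simp only [map_sub, Finsupp.sub_apply, crd_left, crd_right, map_zero, Finsupp.zero_apply] at h2
    exact sub_eq_zero.1 h2
  obtain ⟨y, hy⟩ := eq_tmul_of_crd b z (fun i => by
    have : crd b z i ∈ Subalgebra.center K A := by
      rw [Subalgebra.mem_center_iff]
      exact fun a => hcen a i
    rw [Algebra.IsCentral.mem_center_iff] at this
    exact this)
  refine ⟨y, ?_, hy ▸ hzI⟩
  rintro rfl
  rw [hy] at hz2
  simp at hz2

/-- The tensor product of a central simple algebra and a simple algebra is simple. -/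
theorem isSimpleRing_tensor [IsSimpleRing B] : IsSimpleRing (A ⊗[K] B) := by
  have : Nontrivial (A ⊗[K] B) := inferInstance
  refine IsSimpleRing.of_eq_bot_or_eq_top fun I => ?_
  rw [or_iff_not_imp_left]
  intro hI
  obtain ⟨y, hy0, hy⟩ := exists_tmul_mem I hI
  let T : TwoSidedIdeal B := I.comap (Algebra.TensorProduct.includeRight : B →ₐ[K] A ⊗[K] B)
  have hT : (1 : B) ∈ T := by
    refine IsSimpleRing.one_mem_of_ne_zero_mem T (x := y) hy0 ?_
    rw [TwoSidedIdeal.mem_comap]
    exact hy
  rw [TwoSidedIdeal.mem_comap, map_one] at hT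
  exact (TwoSidedIdeal.one_mem_iff I).1 hT

end

end Pool.Agent.LibMS46
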