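import Mathlib
import Pool.Agent.LibMS46.Simple

/-!
Tensor products and scalar extensions of central algebras are central.
-/

set_option autoImplicit false

open scoped TensorProduct
open Module

namespace Pool.Agent.LibMS46

theorem isCentral_tensor (K A B : Type*) [Field K] [Ring A] [Algebra K A] [Ring B] [Algebra K B]
    [Algebra.IsCentral K A] [Algebra.IsCentral K B] [Nontrivial A] [Nontrivial B] :
    Algebra.IsCentral K (A ⊗[K] B) := by
  refine ⟨fun x hx => ?_⟩
  have h1 : x ∈ Subalgebra.centralizer K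
      ((Algebra.TensorProduct.includeLeft : A →ₐ[K] A ⊗[K] B).range : Set (A ⊗[K] B)) := by
    rw [Subalgebra.mem_centralizer_iff]
    intro y _
    exact (Subalgebra.mem_center_iff.1 hx y)
  rw [Subalgebra.centralizer_coe_range_includeLeft_eq_center_tensorProduct] at h1
  obtain ⟨y, rfl⟩ := h1
  -- every element of the range is `1 ⊗ b`
  have h2 : ∀ y : (Subalgebra.center K A) ⊗[K] B, ∃ b : B,
      (Algebra.TensorProduct.map (Subalgebra.center K A).val (AlgHom.id K B)) y = 1 ⊗ₜ[K] b := by
    intro y
    induction y using TensorProduct.induction_on with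
    | zero => exact ⟨0, by simp⟩
    | tmul c b =>
      obtain ⟨k, hk⟩ := (Algebra.IsCentral.mem_center_iff K).1 c.2
      refine ⟨k • b, ?_⟩
      rw [Algebra.TensorProduct.map_tmul, Subalgebra.coe_val, hk, Algebra.algebraMap_eq_smul_one,
        TensorProduct.smul_tmul]
      simp
    | add y z hy hz =>
      obtain ⟨b, hb⟩ := hy
      obtain ⟨c, hc⟩ := hz
      exact ⟨b + c, by rw [map_add, hb, hc, TensorProduct.tmul_add]⟩
  obtain ⟨b, hb⟩ := h2 y
  change (Algebra.TensorProduct.map (Subalgebra.center K A).val (AlgHom.id K B)) y ∈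
    Subalgebra.center K (A ⊗[K] B) at hx
  rw [hb] at hx
  have h3 : b ∈ Subalgebra.center K B := by
    rw [Subalgebra.mem_center_iff]
    intro c
    have h4 := Subalgebra.mem_center_iff.1 hx (1 ⊗ₜ[K] c)
    rw [Algebra.TensorProduct.tmul_mul_tmul, Algebra.TensorProduct.tmul_mul_tmul] at h4
    have hinj : Function.Injective (Algebra.TensorProduct.includeRight : B →ₐ[K] A ⊗[K] B) :=
      Algebra.TensorProduct.includeRight_injective (algebraMap K A).injective
    apply hinj
    simpa using h4
  obtain ⟨k, hk⟩ := (Algebra.IsCentral.mem_center_iff K).1 h3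
  change (Algebra.TensorProduct.map (Subalgebra.center K A).val (AlgHom.id K B)) y ∈ _
  rw [hb, hk]
  refine ⟨k, ?_⟩
  change algebraMap K (A ⊗[K] B) k = _
  rw [Algebra.algebraMap_eq_smul_one, Algebra.algebraMap_eq_smul_one, TensorProduct.tmul_smul,
    Algebra.TensorProduct.one_def]

theorem isCentral_baseChange (F E A : Type*) [Field F] [Field E] [Algebra F E] [Ring A]
    [Algebra F A] [Algebra.IsCentral F A] : Algebra.IsCentral E (E ⊗[F] A) := by
  refine ⟨fun x hx => ?_⟩
  have h1 : x ∈ Subalgebra.centralizer F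
      ((Algebra.TensorProduct.includeRight : A →ₐ[F] E ⊗[F] A).range : Set (E ⊗[F] A)) := by
    rw [Subalgebra.mem_centralizer_iff]
    intro y _
    exact (Subalgebra.mem_center_iff.1 hx y)
  rw [Subalgebra.centralizer_range_includeRight_eq_center_tensorProduct] at h1
  obtain ⟨y, rfl⟩ := h1
  have h2 : ∀ y : E ⊗[F] (Subalgebra.center F A), ∃ e : E,
      (Algebra.TensorProduct.map (AlgHom.id F E) (Subalgebra.center F A).val) y = e ⊗ₜ[F] 1 := by
    intro y
    induction y using TensorProduct.induction_on with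
    | zero => exact ⟨0, by simp⟩
    | tmul e c =>
      obtain ⟨k, hk⟩ := (Algebra.IsCentral.mem_center_iff F).1 c.2
      refine ⟨k • e, ?_⟩
      rw [Algebra.TensorProduct.map_tmul, Subalgebra.coe_val, hk, Algebra.algebraMap_eq_smul_one,
        ← TensorProduct.smul_tmul]
      simp
    | add y z hy hz =>
      obtain ⟨b, hb⟩ := hy
      obtain ⟨c, hc⟩ := hz
      exact ⟨b + c, by rw [map_add, hb, hc, TensorProduct.add_tmul]⟩
  obtain ⟨e, he⟩ := h2 y
  change (Algebra.TensorProduct.map (AlgHom.id F E) (Subalgebra.center F A).val) y ∈ _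
  rw [he]
  exact ⟨e, rfl⟩

theorem isSimpleRing_baseChange (F E A : Type*) [Field F] [Field E] [Algebra F E] [Ring A]
    [Algebra F A] [Algebra.IsCentral F A] [IsSimpleRing A] : IsSimpleRing (E ⊗[F] A) := by
  have h : IsSimpleRing (A ⊗[F] E) := isSimpleRing_tensor
  exact IsSimpleRing.of_ringEquiv (Algebra.TensorProduct.comm F A E).toRingEquiv h

end Pool.Agent.LibMS46
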