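import Mathlib
import Pool.Agent.LibBrS.Defs

/-!
Tensor powers of an algebra and the assertion of the theorem of Merkurjev and Suslin for a field and
a prime number.
-/

set_option autoImplicit false

open scoped TensorProduct
open Module Pool.Agent.LibBrS Pool.Agent.LibK2Tower

namespace Pool.Agent.LibMS46

/-- `B` is the `n`-th tensor power `A ⊗ (A ⊗ ⋯ ⊗ K)` of the `K`-algebra `A`. -/
inductive IsTensorPow (K A : Type) [Field K] [Ring A] [Algebra K A] :
    ∀ (_n : ℕ) (B : Type) [Ring B] [Algebra K B], Prop
  | zero : IsTensorPow K A 0 K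
  | succ (n : ℕ) (B : Type) [Ring B] [Algebra K B] (h : IsTensorPow K A n B) :
      IsTensorPow K A (n + 1) (A ⊗[K] B)

/-- The assertion of the theorem of Merkurjev and Suslin for the field `K` and the number `l`: if
`ζ` is a primitive `l`-th root of unity in `K`, then every central simple algebra over `K` whose
`l`-th tensor power is a matrix algebra is Brauer equivalent to a tensor product of symbol
algebras `(a_i, b_i)_ζ` of degree `l` over `K`. -/
def MerkurjevSuslin (K : Type) [Field K] (l : ℕ) : Prop :=
  ∀ ζ : K, IsPrimitiveRoot ζ l → ∀ (A : Type) [Ring A] [Algebra K A] [Algebra.IsCentral K A]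
    [IsSimpleRing A] [FiniteDimensional K A],
    (∃ (T : Type) (_ : Ring T) (_ : Algebra K T) (n : ℕ), IsTensorPow K A l T ∧
      Nonempty (T ≃ₐ[K] Matrix (Fin n) (Fin n) K)) →
    ∃ (B : Type) (_ : Ring B) (_ : Algebra K B), IsSymbProd K l ζ B ∧ BrEq K A B

end Pool.Agent.LibMS46
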