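import Mathlib
import Pool.Agent.LibMS46.Defs
import Pool.Agent.LibMS46.Central
import Pool.Agent.LibBrS.BaseCh

/-!
Tensor powers of central simple algebras, and their behaviour under extension of scalars.
-/

set_option autoImplicit false

open scoped TensorProduct
open Module Pool.Agent.LibBrS

namespace Pool.Agent.LibMS46

/-- A central simple algebra of finite dimension. -/
structure IsCSA (K A : Type) [Field K] [Ring A] [Algebra K A] : Prop where
  central : Algebra.IsCentral K A
  simple : IsSimpleRing A
  fin : FiniteDimensional K A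

theorem IsCSA.self (K : Type) [Field K] : IsCSA K K :=
  ⟨inferInstance, inferInstance, inferInstance⟩

theorem IsCSA.tensor {K A B : Type} [Field K] [Ring A] [Algebra K A] [Ring B] [Algebra K B]
    (hA : IsCSA K A) (hB : IsCSA K B) : IsCSA K (A ⊗[K] B) := by
  obtain ⟨_, _, _⟩ := hA
  obtain ⟨_, _, _⟩ := hB
  exact ⟨isCentral_tensor K A B, isSimpleRing_tensor, inferInstance⟩

theorem IsCSA.baseChange {F A : Type} [Field F] [Ring A] [Algebra F A] (hA : IsCSA F A)
    (E : Type) [Field E] [Algebra F E] : IsCSA E (E ⊗[F] A) := by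
  obtain ⟨_, _, _⟩ := hA
  exact ⟨isCentral_baseChange F E A, isSimpleRing_baseChange F E A, inferInstance⟩

/-- Tensor powers exist, and they are central simple. -/
theorem exists_tensorPow {K A : Type} [Field K] [Ring A] [Algebra K A] (hA : IsCSA K A) (n : ℕ) :
    ∃ (T : Type) (_ : Ring T) (_ : Algebra K T), IsTensorPow K A n T ∧ IsCSA K T := by
  induction n with
  | zero => exact ⟨K, inferInstance, inferInstance, .zero, IsCSA.self K⟩
  | succ n ih =>
    obtain ⟨T, _, _, hT, hT'⟩ := ih
    exact ⟨A ⊗[K] T, inferInstance, inferInstance, .succ n T hT, hA.tensor hT'⟩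

/-- The tensor powers of the scalar extension. -/
theorem IsTensorPow.baseChange {F A : Type} [Field F] [Ring A] [Algebra F A] (E : Type) [Field E]
    [Algebra F E] {n : ℕ} {T : Type} [Ring T] [Algebra F T] (h : IsTensorPow F A n T) :
    ∃ (T' : Type) (_ : Ring T') (_ : Algebra E T'), IsTensorPow E (E ⊗[F] A) n T' ∧
      Nonempty (T' ≃ₐ[E] E ⊗[F] T) := by
  induction h with
  | zero => exact ⟨E, inferInstance, inferInstance, .zero,
      ⟨(Algebra.TensorProduct.rid F E E).symm⟩⟩
  | succ n B h ih =>
    obtain ⟨T', _, _, hT, ⟨e⟩⟩ := ih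
    obtain ⟨f⟩ := baseChange_tensor F E A B
    exact ⟨(E ⊗[F] A) ⊗[E] T', inferInstance, inferInstance, .succ n T' hT,
      ⟨(Algebra.TensorProduct.congr AlgEquiv.refl e).trans f.symm⟩⟩

end Pool.Agent.LibMS46
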