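import Mathlib
import Pool.Agent.LibMS46.Pow

/-!
From symbols to the whole Brauer group: an additive invariant of central simple algebras which has
finite order, has no `p`-torsion and detects matrix algebras, together with the theorem of
Merkurjev and Suslin for the fields `F(ζ_l)`, reduces the splitting of all central simple algebras
over `F` to the splitting of those which become products of symbol algebras over `F(ζ_l)`.
-/

set_option autoImplicit false

open scoped TensorProduct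
open Module Pool.Agent.LibBrS

namespace Pool.Agent.LibMS46

/-- `A` is a matrix algebra over `K`. -/
def IsSplit (K A : Type) [Field K] [Ring A] [Algebra K A] : Prop :=
  ∃ n : ℕ, n ≠ 0 ∧ Nonempty (A ≃ₐ[K] Matrix (Fin n) (Fin n) K)

/-- The dimension of a central simple algebra is a square. -/
theorem IsCSA.exists_degree {F A : Type} [Field F] [Ring A] [Algebra F A] (hA : IsCSA F A) :
    ∃ r : ℕ, r ≠ 0 ∧ finrank F A = r ^ 2 := by
  obtain ⟨_, _, _⟩ := hA
  have := isSimpleRing_baseChange F (AlgebraicClosure F) A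
  obtain ⟨n, hn, ⟨e⟩⟩ := IsSimpleRing.exists_algEquiv_matrix_of_isAlgClosed (AlgebraicClosure F)
    (AlgebraicClosure F ⊗[F] A)
  refine ⟨n, hn.out, ?_⟩
  have h1 := e.toLinearEquiv.finrank_eq
  rw [Module.finrank_baseChange, Module.finrank_matrix] at h1
  simpa [sq] using h1

/-- An invariant of the central simple algebras over `F`. -/
structure Invariant (F : Type) [Field F] (V : Type) [CommGroup V] (p : ℕ)
    (C : ∀ (A : Type) [Ring A] [Algebra F A], V → Prop) : Prop where
  exists_cls : ∀ (A : Type) [Ring A] [Algebra F A], IsCSA F A → ∃ v, C A v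
  self : C F 1
  tensor : ∀ (A B : Type) [Ring A] [Algebra F A] [Ring B] [Algebra F B] (v w : V), IsCSA F A →
    IsCSA F B → C A v → C B w → C (A ⊗[F] B) (v * w)
  finite : ∀ (A : Type) [Ring A] [Algebra F A] (v : V), IsCSA F A → C A v → ∃ n, n ≠ 0 ∧ v ^ n = 1
  no_p : ∀ v : V, v ^ p = 1 → v = 1
  split : ∀ (A : Type) [Ring A] [Algebra F A] (v : V), IsCSA F A → C A v → v = 1 → IsSplit F A
  of_split : ∀ (A : Type) [Ring A] [Algebra F A] (v : V), IsSplit F A → C A v → v = 1

theorem Invariant.pow {F : Type} [Field F] {V : Type} [CommGroup V] {p : ℕ}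
    {C : ∀ (A : Type) [Ring A] [Algebra F A], V → Prop} (hC : Invariant F V p C)
    {A : Type} [Ring A] [Algebra F A] (hA : IsCSA F A) {v : V} (hv : C A v) {n : ℕ} {T : Type}
    [Ring T] [Algebra F T] (hT : IsTensorPow F A n T) : IsCSA F T ∧ C T (v ^ n) := by
  induction hT with
  | zero => exact ⟨IsCSA.self F, by rw [pow_zero]; exact hC.self⟩
  | succ n B h ih =>
    refine ⟨hA.tensor ih.1, ?_⟩
    rw [pow_succ']
    exact hC.tensor A B v (v ^ n) hA ih.1 hv ih.2

/-- The reduction. -/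
theorem split_of_merkurjevSuslin {F : Type} [Field F] {p : ℕ} [Fact p.Prime] [CharP F p]
    {V : Type} [CommGroup V] {C : ∀ (A : Type) [Ring A] [Algebra F A], V → Prop}
    (hC : Invariant F V p C)
    (h2 : ∀ (E : Type) [Field E] [Algebra F E] (z : E) (N : ℕ), N ≠ 0 → z ^ N = 1 →
      IntermediateField.adjoin F {z} = ⊤ → ∀ (m : ℕ) (ζ : E), 1 < m → m.Coprime p →
      IsPrimitiveRoot ζ m → ∀ (A : Type) [Ring A] [Algebra F A] [IsSimpleRing A] (r : ℕ), r ≠ 0 →
      finrank F A = r ^ 2 →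
      (∃ (B : Type) (_ : Ring B) (_ : Algebra E B), IsSymbProd E m ζ B ∧ BrEq E (E ⊗[F] A) B) →
      Nonempty (A ≃ₐ[F] Matrix (Fin r) (Fin r) F))
    (hMS : ∀ l : ℕ, l.Prime → l ≠ p → MerkurjevSuslin (CyclotomicField l F) l)
    (A : Type) [Ring A] [Algebra F A] (hA : IsCSA F A) : IsSplit F A := by
  obtain ⟨v, hv⟩ := hC.exists_cls A hA
  by_contra hns
  obtain ⟨n, hn, hvn⟩ := hC.finite A v hA hv
  have hfo : IsOfFinOrder v := isOfFinOrder_iff_pow_eq_one.2 ⟨n, Nat.pos_of_ne_zero hn, hvn⟩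
  have hpos : 0 < orderOf v := hfo.orderOf_pos
  have hne : orderOf v ≠ 1 := fun h => hns (hC.split A v hA hv (orderOf_eq_one_iff.1 h))
  set l := (orderOf v).minFac with hl
  have hlp : l.Prime := Nat.minFac_prime hne
  obtain ⟨k, hk⟩ : l ∣ orderOf v := Nat.minFac_dvd _
  have hk0 : k ≠ 0 := by rintro rfl; rw [mul_zero] at hk; omega
  -- the k-th power
  obtain ⟨T, _, _, hT, -⟩ := exists_tensorPow hA k
  obtain ⟨hTc, hTv⟩ := hC.pow hA hv hT
  have h3 : v ^ k ≠ 1 := by
    intro h
    have h4 := Nat.le_of_dvd (Nat.pos_of_ne_zero hk0) (orderOf_dvd_of_pow_eq_one h)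
    have := hlp.two_le
    nlinarith [Nat.pos_of_ne_zero hk0]
  have h4 : (v ^ k) ^ l = 1 := by rw [← pow_mul, mul_comm k l, ← hk, pow_orderOf_eq_one]
  have hlne : l ≠ p := fun h => h3 (hC.no_p _ (by rw [← h]; exact h4))
  have hNe : NeZero (l : F) := by
    refine ⟨fun h => ?_⟩
    have h5 := (CharP.cast_eq_zero_iff F p l).1 h
    exact hlne ((Nat.prime_dvd_prime_iff_eq (Fact.out : p.Prime) hlp).1 h5).symm
  have hl0 : NeZero l := ⟨hlp.ne_zero⟩
  let E := CyclotomicField l F
  have hζ : IsPrimitiveRoot (IsCyclotomicExtension.zeta l F E) l :=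
    IsCyclotomicExtension.zeta_spec l F E
  -- the l-th power of T
  obtain ⟨U, _, _, hU, -⟩ := exists_tensorPow hTc l
  obtain ⟨hUc, hUv⟩ := hC.pow hTc hTv hU
  obtain ⟨m, hm, ⟨e⟩⟩ := hC.split U _ hUc hUv h4
  obtain ⟨U', _, _, hU', ⟨e'⟩⟩ := hU.baseChange E
  obtain ⟨f⟩ := baseChange_matrix F E F m
  have hTE := hTc.baseChange E
  obtain ⟨_, _, _⟩ := hTE
  have hMat : Nonempty (U' ≃ₐ[E] Matrix (Fin m) (Fin m) E) :=
    ⟨e'.trans ((Algebra.TensorProduct.congr AlgEquiv.refl e).trans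
      (f.trans (Algebra.TensorProduct.rid F E E).mapMatrix))⟩
  obtain ⟨B, _, _, hB, hBE⟩ := hMS l hlp hlne _ hζ (E ⊗[F] T) ⟨U', _, _, m, hU', hMat⟩
  obtain ⟨r, hr, hr2⟩ := hTc.exists_degree
  have hTs := hTc.simple
  have hcop : l.Coprime p := (Nat.coprime_primes hlp (Fact.out : p.Prime)).2 hlne
  have hadj : IntermediateField.adjoin F {IsCyclotomicExtension.zeta l F E} = ⊤ := by
    apply IntermediateField.adjoin_eq_top_of_algebra
    exact IsCyclotomicExtension.adjoin_primitive_root_eq_top hζ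
  have hfin := h2 E _ l hlp.ne_zero hζ.pow_eq_one hadj l _ hlp.one_lt hcop hζ T r hr hr2
    ⟨B, _, _, hB, hBE⟩
  exact h3 (hC.of_split T _ ⟨r, hr, hfin⟩ hTv)

/-- If all central simple algebras are matrix algebras, then the Brauer group is trivial. -/
theorem subsingleton_brauerGroup {F : Type} [Field F]
    (h : ∀ (A : Type) [Ring A] [Algebra F A], IsCSA F A → IsSplit F A) :
    Subsingleton (BrauerGroup.{0, 0} F) := by
  refine ⟨fun a b => ?_⟩
  induction a using Quotient.inductionOn with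
  | h A =>
  induction b using Quotient.inductionOn with
  | h B =>
  apply Quotient.sound
  obtain ⟨n, hn, ⟨e⟩⟩ := h A ⟨A.isCentral, A.isSimple, A.fin_dim⟩
  obtain ⟨m, hm, ⟨f⟩⟩ := h B ⟨B.isCentral, B.isSimple, B.fin_dim⟩
  have h1 : BrEq F A F := (BrEq.of_equiv e).trans (brEq_matrix n hn)
  have h2 : BrEq F B F := (BrEq.of_equiv f).trans (brEq_matrix m hm)
  exact h1.trans h2.symm

end Pool.Agent.LibMS46
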