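import Mathlib
import Pool.Agent.LibMS46.Reduce
import Pool.Agent.LibCoc63.Tensor
import Pool.Agent.LibCoc63.Desc

/-!
The class of a central simple algebra in the group of 2-cochains modulo continuous coboundaries is
an invariant in the sense of `Invariant`.
-/

set_option autoImplicit false

open scoped TensorProduct
open Module Pool.Agent.LibCoc63

namespace Pool.Agent.LibMS46

/-- `v` is the class of the algebra `A` over `F`. -/
def CocCls (F : Type) [Field F] (A : Type) [Ring A] [Algebra F A] (v : V F (AlgebraicClosure F)) :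
    Prop :=
  ∃ (m : ℕ) (ρ : A →ₐ[F] Matrix (Fin m) (Fin m) (AlgebraicClosure F)), m ≠ 0 ∧ IsRep ρ ∧
    IsCls F ρ v

theorem CocCls.exists_cls {F : Type} [Field F] {A : Type} [Ring A] [Algebra F A]
    (hA : IsCSA F A) : ∃ v, CocCls F A v := by
  obtain ⟨_, _, _⟩ := hA
  obtain ⟨m, hm, ρ, hρ⟩ := exists_rep F (AlgebraicClosure F) A
  have : Nonempty (Fin m) := ⟨⟨0, Nat.pos_of_ne_zero hm⟩⟩
  obtain ⟨v, hv⟩ := exists_isCls F hρ
  exact ⟨v, m, ρ, hm, hρ, hv⟩

theorem CocCls.of_split {F : Type} [Field F] {A : Type} [Ring A] [Algebra F A]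
    {v : V F (AlgebraicClosure F)} (h : IsSplit F A) (hv : CocCls F A v) : v = 1 := by
  obtain ⟨r, -, ⟨e⟩⟩ := h
  obtain ⟨m, ρ, hm, hρ, hc⟩ := hv
  have : Nonempty (Fin m) := ⟨⟨0, Nat.pos_of_ne_zero hm⟩⟩
  exact isCls_split e hρ hc

theorem CocCls.tensor {F : Type} [Field F] {A B : Type} [Ring A] [Algebra F A] [Ring B]
    [Algebra F B] {v w : V F (AlgebraicClosure F)} (hA : IsCSA F A) (hB : IsCSA F B)
    (hv : CocCls F A v) (hw : CocCls F B w) : CocCls F (A ⊗[F] B) (v * w) := by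
  obtain ⟨x, hx⟩ := CocCls.exists_cls (hA.tensor hB)
  obtain ⟨m, ρ, hm, hρ, hc⟩ := hv
  obtain ⟨n, σ, hn, hσ, hd⟩ := hw
  have h1 : Nonempty (Fin m) := ⟨⟨0, Nat.pos_of_ne_zero hm⟩⟩
  have h2 : Nonempty (Fin n) := ⟨⟨0, Nat.pos_of_ne_zero hn⟩⟩
  obtain ⟨τ, hτ, hτc⟩ := isCls_tensor hρ hσ hc hd
  obtain ⟨k, π, hk, hπ, hπc⟩ := hx
  have h3 : v * w = x := isCls_unique hτ AlgEquiv.refl hπ hτc hπc
  rw [h3]
  exact ⟨k, π, hk, hπ, hπc⟩

theorem isSplit_self (F : Type) [Field F] : IsSplit F F := by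
  refine ⟨1, one_ne_zero, ⟨AlgEquiv.ofBijective (Algebra.ofId F (Matrix (Fin 1) (Fin 1) F))
    ⟨(Algebra.ofId F (Matrix (Fin 1) (Fin 1) F)).toRingHom.injective, fun M => ⟨M 0 0, ?_⟩⟩⟩⟩
  ext i j
  fin_cases i
  fin_cases j
  simp [Algebra.ofId_apply, Matrix.algebraMap_matrix_apply]

theorem invariant (p : ℕ) [Fact p.Prime] (F : Type) [Field F] [CharP F p]
    (hF : ∀ n : ℕ, n ≠ 0 → ∀ a : F, ∃ b : F, b ^ n = a) :
    Invariant F (V F (AlgebraicClosure F)) p (fun A _ _ v => CocCls F A v) where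
  exists_cls A _ _ hA := CocCls.exists_cls hA
  self := by
    obtain ⟨v, hv⟩ := CocCls.exists_cls (IsCSA.self F)
    have h1 : v = 1 := hv.of_split (isSplit_self F)
    rw [← h1]
    exact hv
  tensor A B _ _ _ _ v w hA hB hv hw := hv.tensor hA hB hw
  finite A _ _ v hA hv := by
    obtain ⟨m, ρ, hm, hρ, hc⟩ := hv
    exact ⟨m, hm, by simpa using isCls_pow hc⟩
  no_p v hv := by
    have : CharP (AlgebraicClosure F) p :=
      charP_of_injective_algebraMap (algebraMap F (AlgebraicClosure F)).injective p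
    exact eq_one_of_pow_char p hv
  split A _ _ v hA hv h1 := by
    obtain ⟨m, ρ, hm, hρ, hc⟩ := hv
    have hne : Nonempty (Fin m) := ⟨⟨0, Nat.pos_of_ne_zero hm⟩⟩
    have hex : ExpChar F p := ExpChar.prime Fact.out
    have hpr : PerfectRing F p := PerfectRing.ofSurjective F p (fun a => by
      obtain ⟨b, hb⟩ := hF p (Fact.out : p.Prime).ne_zero a
      exact ⟨b, by rw [frobenius_def, hb]⟩)
    have hpf : PerfectField F := PerfectRing.toPerfectField F p
    rw [h1] at hc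
    obtain ⟨f⟩ := exists_hom_of_isCls_one hc
    have hs := hA.simple
    refine ⟨m, hm, split_of_hom hm ?_ f⟩
    rw [hρ.2, Fintype.card_fin]
  of_split A _ _ v h hv := hv.of_split h

end Pool.Agent.LibMS46
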