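import Mathlib
import Pool.Agent.LibMS46.Reduce
import Pool.Agent.LibMS46.Inst
import Pool.Agent.LibBrS.FinalQ
import Pool.Agent.LibG44.Final

/-!
Assembly: algebras which are products of symbol algebras over a field generated by a root of unity,
and the Brauer group.
-/

set_option autoImplicit false

open scoped TensorProduct
open Module Pool.Agent.LibBrS Pool.Agent.LibK2Tower

namespace Pool.Agent.LibMS46

theorem exists_coprime_exponent {E : Type} [Field E] (p : ℕ) [Fact p.Prime] [CharP E p] {z : E}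
    {N : ℕ} (hN : N ≠ 0) (hz : z ^ N = 1) : ∃ M : ℕ, M.Coprime p ∧ 0 < M ∧ z ^ M = 1 := by
  obtain ⟨a, M, hM, rfl⟩ := Nat.exists_eq_pow_mul_and_not_dvd hN p (Fact.out : p.Prime).ne_one
  refine ⟨M, ?_, ?_, ?_⟩
  · exact ((Nat.Prime.coprime_iff_not_dvd (Fact.out : p.Prime)).2 hM).symm
  · exact Nat.pos_of_ne_zero (fun h => hN (by rw [h, mul_zero]))
  · have : ExpChar E p := ExpChar.prime Fact.out
    have h1 : (z ^ M) ^ p ^ a = 1 := by rw [← pow_mul, mul_comm]; exact hz
    have h2 : iterateFrobenius E p a (z ^ M) = iterateFrobenius E p a 1 := by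
      rw [iterateFrobenius_def, iterateFrobenius_def, h1, one_pow]
    exact iterateFrobenius_inj E p a h2

theorem div_field {F : Type} [Field F] (hF : ∀ n : ℕ, n ≠ 0 → ∀ a : Fˣ, ∃ b : Fˣ, b ^ n = a) :
    ∀ n : ℕ, n ≠ 0 → ∀ a : F, ∃ b : F, b ^ n = a := by
  intro n hn a
  rcases eq_or_ne a 0 with rfl | ha
  · exact ⟨0, zero_pow hn⟩
  · obtain ⟨b, hb⟩ := hF n hn (Units.mk0 a ha)
    exact ⟨b, by rw [← Units.val_pow_eq_pow_val, hb, Units.val_mk0]⟩

/-- `K_2` of a field generated by a root of unity, modulo the symbols `{f, e}`, is a torsion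
group. -/
theorem k2_torsion {F E : Type} [Field F] [Field E] [Algebra F E] (p : ℕ) [Fact p.Prime]
    [CharP F p] (hF : ∀ n : ℕ, n ≠ 0 → ∀ a : F, ∃ b : F, b ^ n = a) {z : E} {N : ℕ} (hN : N ≠ 0)
    (hz : z ^ N = 1) (hE : IntermediateField.adjoin F {z} = ⊤) (x : K2 E) :
    ∃ j : ℕ, j ≠ 0 ∧ j • x ∈ baseSymbols F E := by
  have hint : IsIntegral F z :=
    ⟨Polynomial.X ^ N - 1, Polynomial.monic_X_pow_sub_C 1 hN, by simp [hz]⟩
  have hgen : Algebra.adjoin F {z} = ⊤ := by
    rw [← IntermediateField.adjoin_simple_toSubalgebra_of_isAlgebraic hint.isAlgebraic, hE]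
    rfl
  obtain ⟨j, hj, hx⟩ := LibG44.k2_torsion (p := p) (fun m hm a => hF m (by omega) a)
    (Nat.pos_of_ne_zero hN) hz hgen x
  exact ⟨j, hj.ne', hx⟩

/-- Algebras which are products of symbol algebras over `F(z)`, where `z` is a root of unity, are
matrix algebras. -/
theorem split_of_symbProd {F : Type} [Field F] (p : ℕ) [Fact p.Prime] [CharP F p]
    (hF : ∀ n : ℕ, n ≠ 0 → ∀ a : F, ∃ b : F, b ^ n = a) (E : Type) [Field E] [Algebra F E] (z : E)
    (N : ℕ) (hN : N ≠ 0) (hz : z ^ N = 1) (hE : IntermediateField.adjoin F {z} = ⊤) (m : ℕ)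
    (ζ : E) (hm : 1 < m) (hmp : m.Coprime p) (hζ : IsPrimitiveRoot ζ m) (A : Type) [Ring A]
    [Algebra F A] [IsSimpleRing A] (r : ℕ) (hr : r ≠ 0) (hA : finrank F A = r ^ 2)
    (hsym : ∃ (B : Type) (_ : Ring B) (_ : Algebra E B), IsSymbProd E m ζ B ∧
      BrEq E (E ⊗[F] A) B) : Nonempty (A ≃ₐ[F] Matrix (Fin r) (Fin r) F) := by
  have : CharP E p := charP_of_injective_algebraMap (algebraMap F E).injective p
  obtain ⟨M, hMp, hM0, hzM⟩ := exists_coprime_exponent p hN hz
  exact split_of_symbolsQ p hF hMp hM0 hzM hE hm hmp hζ (k2_torsion p hF hN hz hE) hA hr hsym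

/-- The theorem of Merkurjev and Suslin for the fields `F(ζ_l)` implies that the Brauer group is
trivial. -/
theorem brauer_trivial {F : Type} [Field F] (p : ℕ) [Fact p.Prime] [CharP F p]
    (hF : ∀ n : ℕ, n ≠ 0 → ∀ a : F, ∃ b : F, b ^ n = a)
    (hMS : ∀ l : ℕ, l.Prime → l ≠ p → MerkurjevSuslin (CyclotomicField l F) l) :
    Subsingleton (BrauerGroup.{0, 0} F) :=
  subsingleton_brauerGroup fun A _ _ hA => split_of_merkurjevSuslin (invariant p F hF)
    (fun E _ _ z N hN hz hE m ζ hm hmp hζ A _ _ _ r hr hA hs =>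
      split_of_symbProd p hF E z N hN hz hE m ζ hm hmp hζ A r hr hA hs) hMS A hA

end Pool.Agent.LibMS46
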