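import Mathlib
import Pool.Agent.LibMS46.Central
import Pool.Agent.LibBrS.Cyclic

/-!
Fields in which every element is an `l`-th power: Galois extensions of `l`-power degree split no
nontrivial central simple algebra.
-/

set_option autoImplicit false

open scoped TensorProduct
open Module Pool.Agent.LibBrS

namespace Pool.Agent.LibMS46

section step

variable {K L : Type} [Field K] [Field L] [Algebra K L] {l : ℕ}

/-- The operator `σ - 1` on the multiplicative group, to the power `l`, is divisible by `l`. -/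
theorem exists_sub_one_pow {M : Type*} [AddCommGroup M] (hl : l.Prime) (φ : AddMonoid.End M)
    (h : φ ^ l = 1) : ∃ s : AddMonoid.End M, (φ + (-1)) ^ l = (l : AddMonoid.End M) * s := by
  obtain ⟨r, hr⟩ := ((Commute.one_right φ).neg_right).exists_add_pow_prime_eq hl
  rw [hr, h]
  rcases hl.eq_two_or_odd' with rfl | hodd
  · refine ⟨1 + φ * (-1) * r, ?_⟩
    rw [mul_add, mul_one, mul_assoc, mul_assoc, mul_assoc]
    norm_num
  · refine ⟨φ * (-1) * r, ?_⟩
    rw [hodd.neg_one_pow, add_neg_cancel, zero_add, mul_assoc, mul_assoc, mul_assoc]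

theorem pow_surj_of_no_root (hl : l.Prime) [IsGalois K L] (hL : finrank K L = l)
    (hK : ∀ a : K, ∃ b : K, b ^ l = a) (hζ : ∀ y : K, y ^ l = 1 → y = 1) (x : L) :
    ∃ y : L, y ^ l = x := by
  have hfin : FiniteDimensional K L := FiniteDimensional.of_finrank_pos (by rw [hL]; exact hl.pos)
  rcases eq_or_ne x 0 with rfl | hx
  · exact ⟨0, zero_pow hl.ne_zero⟩
  have hcard : Nat.card Gal(L/K) = l := by rw [IsGalois.card_aut_eq_finrank, hL]
  have hcyc : IsCyclic Gal(L/K) := by
    have : Fact l.Prime := ⟨hl⟩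
    exact isCyclic_of_prime_card hcard
  obtain ⟨σ, hσ⟩ := hcyc.exists_generator
  have hσl : σ ^ l = 1 := by rw [← hcard]; exact pow_card_eq_one'
  let φ : AddMonoid.End (Additive Lˣ) :=
    MonoidHom.toAdditive (Units.map ((σ : L →ₐ[K] L) : L →* L))
  have hφ : ∀ (n : ℕ) (u : Lˣ), (φ ^ n) (Additive.ofMul u) =
      Additive.ofMul (Units.map (((σ ^ n : Gal(L/K)) : L →ₐ[K] L) : L →* L) u) := by
    intro n
    induction n with
    | zero => intro u; rfl
    | succ n ih =>
      intro u
      rw [pow_succ', pow_succ']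
      change φ ((φ ^ n) (Additive.ofMul u)) = _
      rw [ih]
      rfl
  have hφl : φ ^ l = 1 := by
    ext u
    have h := hφ l (Additive.toMul u)
    rw [hσl] at h
    exact congrArg (fun t : Additive Lˣ => ((Additive.toMul t : Lˣ) : L)) h
  -- the backward step
  have hstep : ∀ u : Lˣ, (∃ y : Additive Lˣ, l • y = (φ + (-1)) (Additive.ofMul u)) →
      ∃ y : Additive Lˣ, l • y = Additive.ofMul u := by
    rintro u ⟨y, hy⟩
    set y' : Lˣ := Additive.toMul y with hy'
    have h1 : ((y' : L)) ^ l = σ u / u := by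
      have h2 := congrArg (fun t : Additive Lˣ => ((Additive.toMul t : Lˣ) : L)) hy
      simp only [toMul_nsmul] at h2
      rw [← hy', Units.val_pow_eq_pow_val] at h2
      rw [h2]
      change (((Units.map ((σ : L →ₐ[K] L) : L →* L) u) * u⁻¹ : Lˣ) : L) = _
      rw [Units.val_mul, Units.val_inv_eq_inv_val, div_eq_mul_inv]
      rfl
    have hN : Algebra.norm K (y' : L) = 1 := by
      apply hζ
      have h2 : (y' : L) ^ l * (u : L) = σ (u : L) := by
        rw [h1]; field_simp
      have h3 := congrArg (Algebra.norm K) h2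
      rw [map_mul, map_pow, Algebra.norm_eq_of_algEquiv σ (u : L)] at h3
      exact mul_right_cancel₀ (Algebra.norm_ne_zero_iff.2 u.ne_zero) (h3.trans (one_mul _).symm)
    obtain ⟨z, hz⟩ := groupCohomology.exists_div_of_norm_eq_one hσ hN
    have hz0 : (z : L) ≠ 0 := z.ne_zero
    have hσz : σ (z : L) ≠ 0 := by simp
    have hu : (u : L) ≠ 0 := u.ne_zero
    -- `u * z ^ l` is fixed
    have h3 : σ ((u : L) * (z : L) ^ l) = (u : L) * (z : L) ^ l := by
      rw [map_mul, map_pow]
      have h4 : σ (u : L) = (u : L) * ((z : L) / σ (z : L)) ^ l := by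
        rw [hz, h1]; field_simp
      rw [h4, mul_assoc, ← mul_pow, div_mul_cancel₀ _ hσz]
    have h5 : ∀ τ : Gal(L/K), τ ((u : L) * (z : L) ^ l) = (u : L) * (z : L) ^ l := by
      intro τ
      obtain ⟨i, rfl⟩ := Subgroup.mem_zpowers_iff.1 (hσ τ)
      have h6 : σ ∈ MulAction.stabilizer Gal(L/K) ((u : L) * (z : L) ^ l) := h3
      exact (Subgroup.zpow_mem _ h6 i)
    obtain ⟨c, hc⟩ := (IsGalois.mem_range_algebraMap_iff_fixed (F := K) (E := L) _).2 h5
    obtain ⟨b, hb⟩ := hK c
    have hb' : (algebraMap K L b) ^ l = (u : L) * (z : L) ^ l := by rw [← map_pow, hb, hc]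
    have hb0 : algebraMap K L b ≠ 0 := by
      intro h0
      rw [h0, zero_pow hl.ne_zero] at hb'
      exact (mul_ne_zero hu (pow_ne_zero l hz0)) hb'.symm
    refine ⟨Additive.ofMul (Units.mk0 _ hb0 * z⁻¹), ?_⟩
    rw [← ofMul_pow]
    congr 1
    ext
    rw [Units.val_pow_eq_pow_val, Units.val_mul, Units.val_mk0, Units.val_inv_eq_inv_val, mul_pow,
      hb', inv_pow]
    field_simp
  have hit : ∀ (n : ℕ) (u : Lˣ), (∃ y : Additive Lˣ, l • y = ((φ + (-1)) ^ n) (Additive.ofMul u)) →
      ∃ y : Additive Lˣ, l • y = Additive.ofMul u := by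
    intro n
    induction n with
    | zero => intro u h; exact h
    | succ n ih =>
      rintro u ⟨y, hy⟩
      apply hstep
      obtain ⟨w, hw⟩ := ih (Additive.toMul ((φ + (-1)) (Additive.ofMul u)))
        ⟨y, by rw [hy, pow_succ]; rfl⟩
      exact ⟨w, hw⟩
  obtain ⟨s, hs⟩ := exists_sub_one_pow hl φ hφl
  obtain ⟨y, hy⟩ := hit l (Units.mk0 x hx) ⟨s (Additive.ofMul (Units.mk0 x hx)), by
    rw [hs]
    change _ = (l : AddMonoid.End (Additive Lˣ)) (s (Additive.ofMul (Units.mk0 x hx)))
    simp⟩
  refine ⟨(Additive.toMul y : Lˣ), ?_⟩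
  have h2 := congrArg (fun t : Additive Lˣ => ((Additive.toMul t : Lˣ) : L)) hy
  simpa using h2

/-- If every element of `K` is an `l`-th power and `L/K` is Galois of degree `l`, then every
element of `L` is an `l`-th power. -/
theorem pow_surj_of_galois (hl : l.Prime) [IsGalois K L] (hL : finrank K L = l)
    (hK : ∀ a : K, ∃ b : K, b ^ l = a) (x : L) : ∃ y : L, y ^ l = x := by
  have hfin : FiniteDimensional K L := FiniteDimensional.of_finrank_pos (by rw [hL]; exact hl.pos)
  by_cases hchar : (l : K) = 0
  · -- perfect fields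
    have hcp : CharP K l := by
      have := CharP.exists K
      obtain ⟨q, hq⟩ := this
      have h1 : q ∣ l := (CharP.cast_eq_zero_iff K q l).1 hchar
      rcases (Nat.dvd_prime hl).1 h1 with h2 | h2
      · exact absurd h2 (CharP.char_ne_one K q)
      · rwa [← h2]
    have hfl : Fact l.Prime := ⟨hl⟩
    have hex : ExpChar K l := ExpChar.prime hl
    have hpr : PerfectRing K l := PerfectRing.ofSurjective K l (fun a => by
      obtain ⟨b, hb⟩ := hK a
      exact ⟨b, by rw [frobenius_def, hb]⟩)
    have hpf : PerfectField K := PerfectRing.toPerfectField K l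
    have hpf' : PerfectField L := Algebra.IsAlgebraic.perfectField K
    have hexL : ExpChar L l := expChar_of_injective_algebraMap (algebraMap K L).injective l
    have hprL : PerfectRing L l := PerfectField.toPerfectRing l
    obtain ⟨y, hy⟩ := surjective_frobenius L l x
    exact ⟨y, by rw [← hy, frobenius_def]⟩
  · by_cases hζ : ∀ y : K, y ^ l = 1 → y = 1
    · exact pow_surj_of_no_root hl hL hK hζ x
    · exfalso
      push Not at hζ
      obtain ⟨ζ, hζl, hζ1⟩ := hζ
      have hfl : Fact l.Prime := ⟨hl⟩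
      have hord : orderOf ζ = l := orderOf_eq_prime hζl hζ1
      have hprim : IsPrimitiveRoot ζ l := by rw [← hord]; exact IsPrimitiveRoot.orderOf ζ
      have hcard : Nat.card Gal(L/K) = l := by rw [IsGalois.card_aut_eq_finrank, hL]
      have hcyc : IsCyclic Gal(L/K) := isCyclic_of_prime_card hcard
      have hne : (primitiveRoots (finrank K L) K).Nonempty :=
        ⟨ζ, (mem_primitiveRoots (by rw [hL]; exact hl.pos)).2 (by rw [hL]; exact hprim)⟩
      obtain ⟨α, ⟨a, ha⟩, htop⟩ := exists_root_adjoin_eq_top_of_isCyclic K L hne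
      rw [hL] at ha
      obtain ⟨b, hb⟩ := hK a
      have hα : α ∈ (⊥ : IntermediateField K L) := by
        rcases eq_or_ne b 0 with rfl | hb0
        · rw [zero_pow hl.ne_zero] at hb
          rw [← hb, map_zero] at ha
          rw [pow_eq_zero_iff hl.ne_zero |>.1 ha.symm]
          exact zero_mem _
        · have hb1 : algebraMap K L b ≠ 0 := by simpa using hb0
          have h1 : (α / algebraMap K L b) ^ l = 1 := by
            rw [div_pow, ← ha, ← hb, map_pow, div_self (pow_ne_zero l hb1)]
          have h2 : IsPrimitiveRoot (algebraMap K L ζ) l :=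
            hprim.map_of_injective (algebraMap K L).injective
          obtain ⟨i, -, hi⟩ := h2.eq_pow_of_pow_eq_one h1
          rw [IntermediateField.mem_bot]
          refine ⟨ζ ^ i * b, ?_⟩
          rw [map_mul, map_pow, hi]
          field_simp
      have hbot : IntermediateField.adjoin K {α} = ⊥ :=
        IntermediateField.adjoin_simple_eq_bot_iff.2 hα
      have h3 : (⊥ : IntermediateField K L) = ⊤ := by rw [← hbot, htop]
      have h4 : finrank K L = 1 := by
        rw [← IntermediateField.finrank_top', ← h3]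
        exact IntermediateField.finrank_bot
      rw [hL] at h4
      exact hl.one_lt.ne' h4

end step

/-- If every element of `K` is an `l`-th power, then a central simple algebra over `K` which is
split by a Galois extension of `l`-power degree is split. -/
theorem split_of_primePower (l : ℕ) (hl : l.Prime) : ∀ (k : ℕ) (K L : Type) [Field K] [Field L]
    [Algebra K L] [IsGalois K L], finrank K L = l ^ k → (∀ a : K, ∃ b : K, b ^ l = a) →
    ∀ (A : Type) [Ring A] [Algebra K A] [Algebra.IsCentral K A] [IsSimpleRing A] (r : ℕ), r ≠ 0 →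
    Nonempty (L ⊗[K] A ≃ₐ[L] Matrix (Fin r) (Fin r) L) →
    Nonempty (A ≃ₐ[K] Matrix (Fin r) (Fin r) K) := by
  intro k
  induction k with
  | zero =>
    rintro K L _ _ _ _ hfr hK A _ _ _ _ r hr ⟨e⟩
    rw [pow_zero] at hfr
    have hfin : FiniteDimensional K L := FiniteDimensional.of_finrank_pos (by omega)
    have hcard : Nat.card Gal(L/K) = 1 := by rw [IsGalois.card_aut_eq_finrank, hfr]
    have hcyc : IsCyclic Gal(L/K) := by
      have : Subsingleton Gal(L/K) := (Nat.card_eq_one_iff_unique.1 hcard).1
      infer_instance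
    exact cyclic_descent hcyc (fun c => ⟨c, by rw [hfr, pow_one]⟩) hr e
  | succ k ih =>
    rintro K L _ _ _ _ hfr hK A _ _ _ _ r hr ⟨e⟩
    have hfl : Fact l.Prime := ⟨hl⟩
    have hfin : FiniteDimensional K L :=
      FiniteDimensional.of_finrank_pos (by rw [hfr]; exact pow_pos hl.pos _)
    have hcard : Nat.card Gal(L/K) = l ^ (k + 1) := by rw [IsGalois.card_aut_eq_finrank, hfr]
    obtain ⟨H, hH⟩ := Sylow.exists_subgroup_card_pow_prime (G := Gal(L/K)) l (n := k)
      (by rw [hcard]; exact pow_dvd_pow l (Nat.le_succ k))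
    have hindex : H.index = l := by
      have h1 := H.card_mul_index
      rw [hH, hcard, pow_succ] at h1
      exact Nat.eq_of_mul_eq_mul_left (pow_pos hl.pos k) h1
    have hnormal : H.Normal := by
      apply Subgroup.normal_of_index_eq_minFac_card
      rw [hindex, hcard, Nat.Prime.pow_minFac hl (Nat.succ_ne_zero k)]
    let K₁ := IntermediateField.fixedField H
    have hg1 : IsGalois K K₁ := IsGalois.of_fixedField_normal_subgroup H
    have h2 : finrank K₁ L = l ^ k := by
      rw [← hH]; exact IntermediateField.finrank_fixedField_eq_card H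
    have h3 : finrank K K₁ = l := by
      have h4 := finrank_mul_finrank K K₁ L
      rw [h2, hfr, pow_succ, mul_comm] at h4
      exact Nat.eq_of_mul_eq_mul_left (pow_pos hl.pos k) h4
    have hK₁ : ∀ a : K₁, ∃ b : K₁, b ^ l = a := fun a => pow_surj_of_galois hl h3 hK a
    have hc := isCentral_baseChange K K₁ A
    have hs := isSimpleRing_baseChange K K₁ A
    obtain ⟨e₁⟩ := ih K₁ L h2 hK₁ (K₁ ⊗[K] A) r hr
      ⟨((Algebra.TensorProduct.assoc K K₁ L L K₁ A).symm.trans
        (Algebra.TensorProduct.congr (Algebra.TensorProduct.rid K₁ L L) AlgEquiv.refl)).trans e⟩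
    have hcard1 : Nat.card Gal(K₁/K) = l := by rw [IsGalois.card_aut_eq_finrank, h3]
    have hcyc : IsCyclic Gal(K₁/K) := isCyclic_of_prime_card hcard1
    exact cyclic_descent hcyc (fun c => by rw [h3]; exact hK c) hr e₁

end Pool.Agent.LibMS46
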